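import Pool.Agent.H776R3.CDF.Circle

/-!
# Dynamically stable curves of the curve diffusion flow are circles

Question Q1 of MP_7c1622_gt, answered affirmatively. Along the curve diffusion flow
`∂ₜ γ = - kₛₛ ν` the signed area `A` is constant and the length `L` does not increase, so the
similarity invariant `|A| / L²` does not decrease. Hence a dynamically stable curve maximises
`|A| / L²` in a `C^∞` neighbourhood of itself. The first variation shows that such a curve has
`A ≠ 0` and is a circle, and the second variation excludes circles covered more than once.
-/

open Pool.Agent.H776R3.CDF

namespace Pool.Agent.Results.MP_7c1622_gt.CDFStableCircle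

/-- Every smooth closed immersed plane curve that is dynamically stable for the curve diffusion
flow is a round circle traversed once. -/
theorem result : ∀ γ : ℝ → ℂ, IsClosedCurve γ → DynamicallyStableCDF γ →
    IsCircleTraversedOnce γ :=
  fun _ h hs => stable_isCircle h hs

end Pool.Agent.Results.MP_7c1622_gt.CDFStableCircle
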